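import Pool.Agent.Helper43.CQ.Main

/-!
# Listing sequences from abelian normal subgroups

Let `A` be a symmetric generating set of a finite group `G`, and `N` an abelian normal subgroup of
`G` which is generated by `A ∩ N`. If `A` contains at least three elements of `N \ {1}`, then there
is a closed listing sequence of elements of `A`: the Cayley graph of `G` has a Hamiltonian cycle.
There is no condition on the group `G ⧸ N` and on the other elements of `A`. The condition excludes
only cyclic groups `N` with `A ∩ N ⊆ {1, b, b⁻¹}` and `N = {1, b, c, b c}` with `b c` not in `A`.

Proof idea. (1) Chen and Quimpo: the set `A ∩ N` contains a symmetric generating set `B` of `N` such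
that the Cayley graph of `N` with respect to `B` is Hamilton-connected, or bipartite and
Hamilton-laceable (there are Hamiltonian paths from `1` to all odd elements, the products of an odd
number of elements of `B`). Here this is proved from Hamiltonian paths of rectangular grids which
start at a corner: for two generators one of which does not generate the other (grids on cylinders,
closed up by one edge if the parity is wrong), for circulant graphs with two generators of `N`
(grids of width `j` for the generators `b, b ^ j`), and by adding one generator after the other.
(2) If the graph is not bipartite then the cosets of `N` can be merged along a spanning tree of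
maximum degree three of the Cayley graph of `G ⧸ N` (Mader, Win; `Q112.CH`). (3) In the bipartite
case the coset `x N` can be merged with `x a N` at an edge with label `b ∈ B` only if `a⁻¹ b a` is
odd. The elements `x` with `a⁻¹ x a` even form a subgroup `K` of index two of `N`. The path through
each coset has to contain two such edges, for the two lower neighbours in the tree, whose root is
a leaf. Every Hamiltonian path has an edge that leaves `K`, and if there is only one, then `K` is
generated by `B ∩ K`, and one finds Hamiltonian paths with the same ends and with two such edges in
the prism over a Hamiltonian cycle of `K`.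
-/

set_option autoImplicit false

namespace Pool.Agent.Results.MP_688fd0_co.AbelianNormalSubgroup

universe u

/-- `l = [a_1, …, a_n]` is a listing sequence of elements of `A`: its length `n` is `|G|`, all its
terms lie in `A`, and the partial products `a_1 ⋯ a_k`, `1 ≤ k ≤ n`, are pairwise distinct. -/
def Listing {G : Type*} [Group G] (A : Set G) (l : List G) : Prop :=
  l.length = Nat.card G ∧ (∀ a ∈ l, a ∈ A) ∧
    ∀ i j : ℕ, 1 ≤ i → i ≤ Nat.card G → 1 ≤ j → j ≤ Nat.card G →
      (l.take i).prod = (l.take j).prod → i = j

/-- Let `A` be a symmetric generating set of a finite group `G` and `N` an abelian normal subgroup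
of `G` which is generated by `A ∩ N`, and let `A` contain at least three elements of `N` other than
`1`. Then there is a closed listing sequence of elements of `A` (one with product `1`, a
Hamiltonian cycle of the Cayley graph). -/
theorem result (G : Type u) [Group G] [Finite G] (A : Set G) (hs : ∀ a ∈ A, a⁻¹ ∈ A)
    (hg : Subgroup.closure A = ⊤) (N : Subgroup G) (hN : N.Normal)
    (hcomm : ∀ x ∈ N, ∀ y ∈ N, x * y = y * x) (hgen : Subgroup.closure (A ∩ N) = N)
    (h3 : 3 ≤ ((A ∩ N) \ {1}).ncard) : ∃ l : List G, Listing A l ∧ l.prod = 1 :=
  Q238.RS.closed_listing_of_hcyc
    (Pool.Agent.Helper43.CQ.main_abelian hs hg hN hcomm hgen h3)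

end Pool.Agent.Results.MP_688fd0_co.AbelianNormalSubgroup
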