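import Pool.Agent.Helper43.LT.Inst

/-!
# Listing sequences from a Hamilton-connected normal subgroup of an arbitrary subgroup

Let `A` be a symmetric generating set of a finite group `G`, and `L ≤ H` subgroups of `G` such that
`L` is normal in `H`, `H` is generated by `A ∩ H`, and `Cay(L, A ∩ L)` is Hamilton-connected: any
two elements of `L` are joined by a Hamiltonian path. If `|L| ≥ 3` and `[H : L] ≥ 80` then `A` has a
listing sequence with product `1`: `Cay(G, A)` has a Hamiltonian cycle. There is no condition on
`H / L`, on the elements of `A` outside of `H`, nor on `G`; in particular neither `L` nor `H` has to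
be normal in `G`.

For instance it suffices that `A` contains an element `a` of order three such that the elements of
`A` which commute with `a` or invert it generate a subgroup of order at least `240` (theorem
`order_three` below).

Proof idea. By Mader's and Win's theorems (library modules `Q112.CH`) the graph `Cay(H / L, A ∩ H)`
has a spanning tree of maximum degree three, and we root it at a leaf; the cosets of `L` in a coset
of `H` are its nodes, and neighbouring nodes are joined by perfect matchings. By a theorem of
Haxell's type (library modules `Helper718_cayley`) there is a connected set of links `x — x c`,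
`c ∈ A`, between the left cosets of `H`, with an even number of ends in each of them, such that no
two ends are in the same node, in a node and its parent, or in two children of a node.

The main step is that each coset of `H` has, for every perfect matching `M` of the ends of links in
it, a Hamiltonian cycle which uses all pairs of `M` and otherwise only edges of `Cay(G, A)`. The nodes
are added one after the other. Instead of an end one considers slots: a slot has a node and a set of
possible positions in this node. When a leaf of the tree is removed, its (at most three) slots are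
matched with each other, or joined with other slots by joining their partners, or moved to the
parent; and a slot which is moved becomes free, with at most one exception for each node. Here one
needs that the new node can be inserted at a pair of neighbours in its parent, or at a jump between
two slots, by means of the Hamiltonian paths of the node.

Finally the cosets of `H` are treated one after the other: a parity argument shows that the ends in a
coset can be matched such that matched ends are connected by paths outside of it, and the new
paths inside then merge all cycles meeting this coset.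
-/

set_option autoImplicit false

namespace Pool.Agent.Results.MP_688fd0_co.NormalTrees

open Pool.Agent.Helper43.TW

universe u

/-- See the file header; `HamConnected` and `Listing` are defined in
`Pool.Agent.Helper43.TW.Defs`. -/
theorem result :
    ∀ (G : Type u) [Group G] [Finite G] (A : Set G), (∀ a ∈ A, a⁻¹ ∈ A) →
      Subgroup.closure A = ⊤ → ∀ L H : Subgroup G, L ≤ H →
      (∀ h ∈ H, ∀ x ∈ L, h * x * h⁻¹ ∈ L) → Subgroup.closure (A ∩ H) = H →
      3 ≤ Nat.card L → 80 * Nat.card L ≤ Nat.card H → HamConnected A L →
      ∃ l : List G, Listing A l ∧ l.prod = 1 :=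
  fun _ _ _ A hA hgen _ _ hLH hnorm hH h3 h80 hcon =>
    Pool.Agent.Helper43.LT.tree_theorem A hA hgen hLH hnorm hH h3 h80 hcon

/-- An example for `result`, with `L = ⟨a⟩`. -/
theorem order_three {G : Type u} [Group G] [Finite G] (A : Set G) (hA : ∀ a ∈ A, a⁻¹ ∈ A)
    (hgen : Subgroup.closure A = ⊤) (a : G) (ha : a ∈ A) (h3 : orderOf a = 3)
    (h240 : 240 ≤ Nat.card (Subgroup.closure {c | c ∈ A ∧ (c * a * c⁻¹ = a ∨ c * a * c⁻¹ = a⁻¹)})) :
    ∃ l : List G, Listing A l ∧ l.prod = 1 := by
  classical
  set S : Set G := {c | c ∈ A ∧ (c * a * c⁻¹ = a ∨ c * a * c⁻¹ = a⁻¹)} with hS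
  set H := Subgroup.closure S with hH
  have hcard : Nat.card (Subgroup.zpowers a) = 3 := by rw [Nat.card_zpowers, h3]
  have haS : a ∈ S := ⟨ha, Or.inl (by group)⟩
  have hLH : Subgroup.zpowers a ≤ H := by
    rw [Subgroup.zpowers_le]
    exact Subgroup.subset_closure haS
  have hinv : ∀ h ∈ H, h * a * h⁻¹ = a ∨ h * a * h⁻¹ = a⁻¹ := by
    intro h hh
    induction hh using Subgroup.closure_induction with
    | mem c hc => exact hc.2
    | one => left; group
    | mul x y _ _ hx hy =>
      have e : x * y * a * (x * y)⁻¹ = x * (y * a * y⁻¹) * x⁻¹ := by group
      have e2 : x * a⁻¹ * x⁻¹ = (x * a * x⁻¹)⁻¹ := by group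
      rw [e]
      rcases hy with hy | hy
      · rw [hy]
        exact hx
      · rw [hy, e2]
        rcases hx with hx | hx
        · rw [hx]; exact Or.inr rfl
        · rw [hx, inv_inv]; exact Or.inl rfl
    | inv x _ hx =>
      have e : ∀ b, x * a * x⁻¹ = b → x⁻¹ * b * x⁻¹⁻¹ = a := by
        intro b hb
        rw [← hb]
        group
      rcases hx with hx | hx
      · exact Or.inl (e a hx)
      · right
        have h1 := e a⁻¹ hx
        have h2 : x⁻¹ * a * x⁻¹⁻¹ = (x⁻¹ * a⁻¹ * x⁻¹⁻¹)⁻¹ := by group
        rw [h2, h1]
  refine result G A hA hgen (Subgroup.zpowers a) H hLH ?_ ?_ (by rw [hcard]) (by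
    rw [hcard]; exact h240) ?_
  · rintro h hh _ ⟨k, rfl⟩
    have e : h * a ^ k * h⁻¹ = (h * a * h⁻¹) ^ k := (conj_zpow).symm
    change h * a ^ k * h⁻¹ ∈ _
    rw [e]
    rcases hinv h hh with h1 | h1
    · rw [h1]
      exact Subgroup.zpow_mem _ (Subgroup.mem_zpowers a) k
    · rw [h1]
      exact Subgroup.zpow_mem _ (Subgroup.inv_mem _ (Subgroup.mem_zpowers a)) k
  · apply le_antisymm
    · rw [Subgroup.closure_le]
      exact fun x hx => hx.2
    · rw [hH, Subgroup.closure_le]
      intro x hx
      exact Subgroup.subset_closure ⟨hx.1, Subgroup.subset_closure hx⟩
  · -- three elements, any two of which are adjacent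
    have hadj : ∀ z ∈ Subgroup.zpowers a, z ≠ 1 → z ∈ A := by
      intro z hz hz1
      rw [mem_zpowers_iff_mem_range_orderOf, Finset.mem_image] at hz
      obtain ⟨k, hk, rfl⟩ := hz
      rw [h3, Finset.mem_range] at hk
      have hk' : k = 0 ∨ k = 1 ∨ k = 2 := by omega
      rcases hk' with rfl | rfl | rfl
      · simp at hz1
      · simpa using ha
      · have e : a ^ 2 = a⁻¹ := by
          rw [eq_inv_iff_mul_eq_one, ← pow_succ]
          have := pow_orderOf_eq_one a
          rwa [h3] at this
        rw [e]
        exact hA a ha
    intro x hx y hy hxy
    obtain ⟨z, hz, hzx, hzy⟩ : ∃ z ∈ Subgroup.zpowers a, z ≠ x ∧ z ≠ y := by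
      by_contra hno
      push Not at hno
      have hsub : (Subgroup.zpowers a : Set G) ⊆ {x, y} := by
        intro z hz
        by_cases h : z = x
        · exact Or.inl h
        · exact Or.inr (hno z hz h)
      have h1 := Set.ncard_le_ncard hsub (Set.toFinite _)
      rw [Set.ncard_pair hxy] at h1
      have h4 : (Subgroup.zpowers a : Set G).ncard = Nat.card (Subgroup.zpowers a) := rfl
      omega
    have hstep : ∀ u v : G, u ∈ Subgroup.zpowers a → v ∈ Subgroup.zpowers a → u ≠ v →
        u⁻¹ * v ∈ A := by
      intro u v hu hv huv
      refine hadj _ (Subgroup.mul_mem _ (Subgroup.inv_mem _ hu) hv) fun h => huv ?_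
      exact inv_mul_eq_one.1 h
    refine ⟨fun i => if i = 0 then x else if i = 1 then z else y, by simp, by simp [hcard],
      ?_, ?_, ?_⟩
    · intro i _
      by_cases h0 : i = 0
      · simpa [h0] using hx
      · by_cases h1 : i = 1
        · simpa [h1] using hz
        · simpa [h0, h1] using hy
    · intro i hi
      rw [hcard] at hi
      have hi' : i = 0 ∨ i = 1 := by omega
      rcases hi' with rfl | rfl
      · simpa using hstep x z hx hz hzx.symm
      · simpa using hstep z y hz hy hzy
    · intro i j hi hj h
      rw [hcard] at hi hj
      have hi' : i = 0 ∨ i = 1 ∨ i = 2 := by omega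
      have hj' : j = 0 ∨ j = 1 ∨ j = 2 := by omega
      rcases hi' with rfl | rfl | rfl <;> rcases hj' with rfl | rfl | rfl
      · rfl
      · exact absurd (by simpa using h) hzx.symm
      · exact absurd (by simpa using h) hxy
      · exact absurd (by simpa using h) hzx
      · rfl
      · exact absurd (by simpa using h) hzy
      · exact absurd (by simpa using h) hxy.symm
      · exact absurd (by simpa using h) hzy.symm
      · rfl

end Pool.Agent.Results.MP_688fd0_co.NormalTrees
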