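import Pool.Agent.Helper43.LO.Inst

/-!
# Listing sequences from an element of odd order

Let `A` be a symmetric generating set of a finite group `G`, and let `a ≠ 1` be an element of `A` of
odd order `n`. If the elements `c` of `A` with `c a c⁻¹ ∈ {a, a⁻¹}` generate a subgroup `H` of order
at least `240 n`, then `A` has a listing sequence with product `1`: `Cay(G, A)` has a Hamiltonian
cycle. There is no condition on the other elements of `A`, nor on `G`; in particular neither `⟨a⟩`
nor `H` has to be normal in `G`, and `A ∩ ⟨a⟩` may be `{a, a⁻¹}`.

For instance it suffices that `A` contains two commuting elements `a` and `c`, where `a ≠ 1` has odd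
order and the first `239` powers of `c` are not in `⟨a⟩` (theorem `commuting` below).

Proof idea. The subgroup `⟨a⟩` is normal in `H`, and by Mader's and Win's theorems (library modules
`Q112.CH`) `Cay(H / ⟨a⟩, A ∩ H)` has a spanning tree of maximum degree three, which we root at a leaf.
Its nodes are the left cosets of `⟨a⟩` in a left coset of `H`, which are cycles of length `n`; with
suitable coordinates in `ℤ / n` the tree gives edges between the vertices with the same coordinate of
a node and its parent. By a theorem of Haxell's type (library modules `Helper718_cayley`) there is a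
connected set of links `x — x c`, `c ∈ A`, between the left cosets of `H`, with an even number of ends
in each of them, such that no two ends are in descendants of the same node of degree at most two.

The main step is that each left coset of `H` has, for every perfect matching `M` of the ends of links
in it, a Hamiltonian cycle which uses all pairs of `M` and otherwise only edges of `Cay(G, A)`. The
nodes are added one after the other. Instead of an end one considers slots: a slot has a node and a
set of possible positions in this node. When a leaf of the tree is removed, its (at most three) slots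
are matched with each other, or joined with other slots by joining their partners, or moved to the
parent. A Hamiltonian path of a cycle of odd length between two vertices at distance two does not
exist in general, and a slot with two possible positions `a + 1`, `a - 1` cannot be moved to its
parent directly. It is moved as a slot with a demand: its position in the parent is arbitrary, but
the Hamiltonian cycle has to use the pairs of neighbours in the parent which allow to absorb the
vertices of the new node behind the one below `a + 1`, two at a time; as `n` is odd, in one of the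
two directions the number of these vertices is even. After one further step the demand is void.

Finally the cosets of `H` are treated one after the other: a parity argument shows that the ends in a
coset can be matched such that matched ends are connected by paths outside of it, and the new
paths inside then merge all cycles meeting this coset.
-/

set_option autoImplicit false

namespace Pool.Agent.Results.MP_688fd0_co.OddElements

open Pool.Agent.Helper43.TW

universe u

/-- See the file header; `Listing` is defined in `Pool.Agent.Helper43.TW.Defs`. -/
theorem result :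
    ∀ (G : Type u) [Group G] [Finite G] (A : Set G), (∀ x ∈ A, x⁻¹ ∈ A) →
      Subgroup.closure A = ⊤ → ∀ a ∈ A, a ≠ 1 → Odd (orderOf a) →
      240 * orderOf a ≤
        Nat.card (Subgroup.closure {c | c ∈ A ∧ (c * a * c⁻¹ = a ∨ c * a * c⁻¹ = a⁻¹)}) →
      ∃ l : List G, Listing A l ∧ l.prod = 1 := by
  intro G _ _ A hA hgen a ha h1 hodd h240
  set S : Set G := {c | c ∈ A ∧ (c * a * c⁻¹ = a ∨ c * a * c⁻¹ = a⁻¹)} with hS
  have haS : a ∈ S := ⟨ha, Or.inl (by group)⟩
  have hinv : ∀ h ∈ Subgroup.closure S, h * a * h⁻¹ = a ∨ h * a * h⁻¹ = a⁻¹ := by
    intro h hh
    induction hh using Subgroup.closure_induction with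
    | mem c hc => exact hc.2
    | one => left; group
    | mul x y _ _ hx hy =>
      have e : x * y * a * (x * y)⁻¹ = x * (y * a * y⁻¹) * x⁻¹ := by group
      have e2 : x * a⁻¹ * x⁻¹ = (x * a * x⁻¹)⁻¹ := by group
      rw [e]
      rcases hy with hy | hy
      · rw [hy]
        exact hx
      · rw [hy, e2]
        rcases hx with hx | hx
        · rw [hx]; exact Or.inr rfl
        · rw [hx, inv_inv]; exact Or.inl rfl
    | inv x _ hx =>
      have e : ∀ b, x * a * x⁻¹ = b → x⁻¹ * b * x⁻¹⁻¹ = a := by
        intro b hb
        rw [← hb]
        group
      rcases hx with hx | hx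
      · exact Or.inl (e a hx)
      · right
        have h1 := e a⁻¹ hx
        have h2 : x⁻¹ * a * x⁻¹⁻¹ = (x⁻¹ * a⁻¹ * x⁻¹⁻¹)⁻¹ := by group
        rw [h2, h1]
  refine Pool.Agent.Helper43.LO.odd_theorem A hA hgen ha hodd h1 (Subgroup.subset_closure haS)
    hinv ?_ h240
  apply le_antisymm
  · rw [Subgroup.closure_le]
    exact fun x hx => hx.2
  · rw [Subgroup.closure_le]
    intro x hx
    exact Subgroup.subset_closure ⟨hx.1, Subgroup.subset_closure hx⟩

/-- An example for `result`. -/
theorem commuting {G : Type u} [Group G] [Finite G] (A : Set G) (hA : ∀ a ∈ A, a⁻¹ ∈ A)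
    (hgen : Subgroup.closure A = ⊤) (a c : G) (ha : a ∈ A) (hc : c ∈ A) (hac : a * c = c * a)
    (ha1 : a ≠ 1) (hodd : Odd (orderOf a))
    (hpow : ∀ i, 0 < i → i < 240 → c ^ i ∉ Subgroup.zpowers a) :
    ∃ l : List G, Listing A l ∧ l.prod = 1 := by
  refine result G A hA hgen a ha ha1 hodd ?_
  set S : Set G := {c | c ∈ A ∧ (c * a * c⁻¹ = a ∨ c * a * c⁻¹ = a⁻¹)} with hS
  have haS : a ∈ Subgroup.closure S := Subgroup.subset_closure ⟨ha, Or.inl (by group)⟩
  have hcS : c ∈ Subgroup.closure S := Subgroup.subset_closure ⟨hc, Or.inl (by
    rw [← hac]; group)⟩
  have hL : Subgroup.zpowers a ≤ Subgroup.closure S := by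
    rw [Subgroup.zpowers_le]; exact haS
  let f : Fin 240 × Subgroup.zpowers a → Subgroup.closure S := fun p =>
    ⟨c ^ (p.1 : ℕ) * p.2, Subgroup.mul_mem _ (Subgroup.pow_mem _ hcS _) (hL p.2.2)⟩
  have hkey : ∀ i j : ℕ, i < j → j < 240 → ∀ x ∈ Subgroup.zpowers a, ∀ y ∈ Subgroup.zpowers a,
      c ^ i * x ≠ c ^ j * y := by
    intro i j hij hj x hx y hy h
    apply hpow (j - i) (by omega) (by omega)
    have e : c ^ (j - i) = x * y⁻¹ := by
      have e1 : c ^ j = c ^ i * c ^ (j - i) := by
        rw [← pow_add]
        congr 1
        omega
      rw [e1, mul_assoc] at h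
      rw [mul_left_cancel h]
      group
    rw [e]
    exact Subgroup.mul_mem _ hx (Subgroup.inv_mem _ hy)
  have hf : Function.Injective f := by
    rintro ⟨i, x⟩ ⟨j, y⟩ h
    have h' : c ^ (i : ℕ) * (x : G) = c ^ (j : ℕ) * (y : G) := congrArg Subtype.val h
    rcases lt_trichotomy (i : ℕ) (j : ℕ) with h1 | h1 | h1
    · exact absurd h' (hkey _ _ h1 j.2 _ x.2 _ y.2)
    · have h2 : i = j := Fin.ext h1
      subst h2
      have h3 : x = y := Subtype.ext (mul_left_cancel h')
      rw [h3]
    · exact absurd h'.symm (hkey _ _ h1 i.2 _ y.2 _ x.2)
  have h1 := Nat.card_le_card_of_injective f hf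
  rw [Nat.card_prod, Nat.card_zpowers, Nat.card_eq_fintype_card, Fintype.card_fin] at h1
  exact h1

end Pool.Agent.Results.MP_688fd0_co.OddElements
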