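import Pool.Agent.Helper43.TW.Sym

/-!
# Listing sequences from towers of subgroups

Let `A` be a symmetric generating set of a finite group `G`. A subgroup `K` is called
Hamilton-connected if any two elements of `K` are joined by a Hamiltonian path of
`Cay(K, A ∩ K)`. It is shown that this property passes from a subgroup `H` of order at least three
to the top `K` of every tower of subgroups each step `K' ≤ L` of which is

* normal: `K'` is normal in `L`, and `L` is generated by `A ∩ L`; or
* full: `A` meets all double cosets `K' g K'` with `g ∈ L \ K'` (for instance, `L` acts doubly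
  transitively on the cosets of `K'` and contains an element of `A` outside of `K'`), and
  `K' ∩ a K' a⁻¹` has at least three elements for `a ∈ A ∩ L \ K'` (for instance,
  `2 ([L : K'] - 1) < |K'|`).

So there are closed listing sequences for `G` (Hamiltonian cycles) if `K = G`, or if the groups
`K ∩ a K a⁻¹` are not too small and the graph of the cosets of `K` is Hamiltonian; this last
condition holds if the index of `K` is a prime or if `G = M K` with an abelian group `M`.
There is a version for bipartite Cayley graphs: Hamilton-laceable subgroups, with respect to a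
homomorphism `χ` to `{1, -1}` with `χ a = -1` for all `a ∈ A`.

For the bottom of the tower one may take abelian groups of odd order which contain at least three
elements of `A \ {1}` and are generated by them (in the bipartite case: all abelian groups with
this property), and all groups more than half of whose elements lie in `A \ {1}`
(`Pool.Agent.Helper43.TW.Tops`). The stabilisers of points in symmetric groups form a tower with
full steps (`Pool.Agent.Helper43.TW.Sym`).

Proof idea. Normal steps: the path runs through the cosets of a path of a spanning tree of maximum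
degree three of `Cay(L / K', A)` (Mader, Win; library modules `Q112.CH`), and the other cosets are
merged with it along the tree. Full steps: one may visit the cosets of `K'` in any order; if the ends
of the path are in the same coset then one leaves it between two neighbouring elements of a
Hamiltonian path of this coset and returns after having visited all the others.
-/

set_option autoImplicit false

namespace Pool.Agent.Results.MP_688fd0_co.Towers

open Pool.Agent.Helper43.TW

universe u

/-- See the file header; the definitions are in `Pool.Agent.Helper43.TW.Defs`. -/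
theorem result :
    ∀ (G : Type u) [Group G] [Finite G] (A : Set G), (∀ a ∈ A, a⁻¹ ∈ A) →
      Subgroup.closure A = ⊤ → ∀ H K : Subgroup G, 3 ≤ Nat.card H →
      -- Hamilton-connected
      (HamConnected A H → Tower A Wide H K → HamConnected A K ∧
        (K = ⊤ ∨ (∀ a ∈ A, a ∉ K → Wide K a) ∧ (K.index.Prime ∨
          (∃ M : Subgroup G, (∀ x ∈ M, ∀ y ∈ M, x * y = y * x) ∧
            ∀ g : G, ∃ m ∈ M, ∃ k ∈ K, m * k = g) ∨ CosetCycle A K) →
          ∃ l : List G, Listing A l ∧ l.prod = 1)) ∧
      -- Hamilton-laceable
      (∀ χ : G →* ℤˣ, (∀ a ∈ A, χ a = -1) → (∃ b ∈ H, χ b = -1) →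
        Laceable A χ H → Tower A (Mixed χ) H K → Laceable A χ K ∧
        (K = ⊤ ∨ (∀ a ∈ A, a ∉ K → Mixed χ K a) ∧ (K.index.Prime ∨
          (∃ M : Subgroup G, (∀ x ∈ M, ∀ y ∈ M, x * y = y * x) ∧
            ∀ g : G, ∃ m ∈ M, ∃ k ∈ K, m * k = g) ∨ CosetCycle A K) →
          ∃ l : List G, Listing A l ∧ l.prod = 1)) := by
  have key : ∀ (G : Type u) [Group G] [Finite G] (A : Set G), (∀ a ∈ A, a⁻¹ ∈ A) →
      Subgroup.closure A = ⊤ → ∀ K : Subgroup G, K ≠ ⊤ → ∀ E : Set G, Good A E K →
      (∀ a ∈ A, a ∉ K → a ∈ E) → (∀ a ∈ A, a ∉ K → SC E K a) →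
      (K.index.Prime ∨ (∃ M : Subgroup G, (∀ x ∈ M, ∀ y ∈ M, x * y = y * x) ∧
            ∀ g : G, ∃ m ∈ M, ∃ k ∈ K, m * k = g) ∨ CosetCycle A K) →
      ∃ l : List G, Listing A l ∧ l.prod = 1 := by
    intro G _ _ A hs hgen K hK E hgood hAE hS hidx
    apply Q238.RS.closed_listing_of_hcyc
    rcases hidx with hp | ⟨M, hM, hMK⟩ | ⟨c, h1, h2, h3⟩
    · obtain ⟨g, hg⟩ := prime_supplement hp
      refine factor_step (M := Subgroup.zpowers g) hs hgen ?_ hg hK hgood hAE hS
      rintro x ⟨i, rfl⟩ y ⟨j, rfl⟩
      show g ^ i * g ^ j = g ^ j * g ^ i
      rw [← zpow_add, ← zpow_add, add_comm]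
    · exact factor_step hs hgen hM hMK hK hgood hAE hS
    · exact cyclic_step_seq hs hgood hAE hS c h1 h3 h2
  intro G _ _ A hs hgen H K h3
  refine ⟨fun hH hT => ?_, fun χ hχ hb hH hT => ?_⟩
  · have hK : HamConnected A K := tower_connected hs h3 hH hT
    refine ⟨hK, ?_⟩
    have hKcard : 3 ≤ Nat.card K := h3.trans (Nat.card_le_card_of_injective _
      (Subgroup.inclusion_injective hT.le))
    have hgoodK : Good A (E1 G) K := good_iff_connected.2 hK
    by_cases hKt : K = ⊤
    · intro _
      subst hKt
      obtain ⟨a, ha, ha1⟩ : ∃ a ∈ A, a ≠ 1 := by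
        by_contra hno
        push Not at hno
        have h1 : Subgroup.closure A = ⊥ := by
          rw [Subgroup.closure_eq_bot_iff]
          exact fun a ha => hno a ha
        rw [h1] at hgen
        rw [← hgen] at hKcard
        simp at hKcard
      exact Q238.RS.closed_listing_of_hcyc (hcyc_of_good hs hgoodK ha
        fun h => ha1 (inv_eq_one.1 h))
    · rintro (h | ⟨hW, hidx⟩)
      · exact absurd h hKt
      · refine key G A hs hgen K hKt (E1 G) hgoodK ?_ (fun a ha haK => wide_sc (hW a ha haK)) hidx
        rintro a _ haK rfl
        exact haK K.one_mem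
  · have hK : Laceable A χ K := tower_laceable hs hχ h3 hb hH hT
    refine ⟨hK, ?_⟩
    have hgoodK : Good A (E2 χ) K := good_iff_laceable.2 hK
    by_cases hKt : K = ⊤
    · intro _
      subst hKt
      obtain ⟨a, ha⟩ : A.Nonempty := by
        by_contra hno
        rw [Set.not_nonempty_iff_eq_empty] at hno
        subst hno
        obtain ⟨b, _, hb1⟩ := hb
        have : b ∈ Subgroup.closure (∅ : Set G) := by rw [hgen]; trivial
        rw [Subgroup.closure_empty, Subgroup.mem_bot] at this
        subst this
        rw [map_one] at hb1
        exact absurd hb1 (by decide)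
      exact Q238.RS.closed_listing_of_hcyc (hcyc_of_good hs hgoodK ha (hχ _ (hs a ha)))
    · rintro (h | ⟨hW, hidx⟩)
      · exact absurd h hKt
      · exact key G A hs hgen K hKt (E2 χ) hgoodK (fun a ha _ => hχ a ha)
          (fun a ha haK => mixed_sc hχ ha (hW a ha haK)) hidx

end Pool.Agent.Results.MP_688fd0_co.Towers
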